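import Pool.Agent.H497_Compat.Ramsey

/-!
# The Ramsey form of the compatibility of Aronszajn lines

The statement of the problem about compatibility is equivalent to its version for one target
Countryman line and to its strong version for finitely many injections at once.
-/

set_option autoImplicit false

open Set Pool.Agent.H497

namespace Pool.Agent.Results.MP_713299_lc.RamseyForm

theorem result : List.TFAE [
    -- every two good lines are compatible
    AllCompatible,
    -- every injection of a good line to a Countryman line is monotone or antitone on an
    -- uncountable set
    ∀ (C : Type) [LinearOrder C], Countryman C → ∀ (L : Type) [LinearOrder L], Good L →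
      ∀ f : L → C, Function.Injective f →
        ∃ Z : Set L, ¬ Z.Countable ∧ (StrictMonoOn f Z ∨ StrictAntiOn f Z),
    -- the same for some Countryman line
    ∃ (C : Type) (_ : LinearOrder C), Countryman C ∧ ∀ (L : Type) [LinearOrder L], Good L →
      ∀ f : L → C, Function.Injective f →
        ∃ Z : Set L, ¬ Z.Countable ∧ (StrictMonoOn f Z ∨ StrictAntiOn f Z),
    -- finitely many injections of a good line to good lines are simultaneously monotone or
    -- antitone on an uncountable set
    ∀ (n : ℕ) (L : Type) [LinearOrder L] (M : Fin n → Type) [∀ i, LinearOrder (M i)], Good L →
      (∀ i, Good (M i)) → ∀ f : ∀ i, L → M i, (∀ i, Function.Injective (f i)) →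
        ∃ Z : Set L, ¬ Z.Countable ∧ ∀ i, StrictMonoOn (f i) Z ∨ StrictAntiOn (f i) Z] :=
  tfae

end Pool.Agent.Results.MP_713299_lc.RamseyForm
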