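import Pool.Agent.H497_Compat.NoEmb
import Pool.Agent.H497_Compat.Ramsey

/-!
# Good lines with a small family of types below them, under `2 ^ ℵ₀ < 2 ^ ℵ₁`

If `2 ^ ℵ₀ < 2 ^ ℵ₁` (for instance under the continuum hypothesis) and `L` is an Aronszajn line
without Suslin suborders such that, for some family of at most `2 ^ ℵ₀` uncountable linear orders,
each uncountable suborder of `L` contains a copy of a member of the family, then some Countryman line
is not compatible with `L`.
-/

set_option autoImplicit false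

open Set Pool.Agent.H497

namespace Pool.Agent.Results.MP_713299_lc.SmallBase

theorem short_of_embedding {L B : Type} [LinearOrder L] [LinearOrder B] (hL : Gen.Short L)
    (f : B ↪o L) : Gen.Short B := by
  constructor
  · intro s hs
    refine countable_of_injective_of_countable_image f.injective.injOn (hL.1 _ ?_)
    rw [wellFoundedOn_image]
    exact hs.mono' fun a _ b _ hab => f.lt_iff_lt.1 hab
  · intro s hs
    refine countable_of_injective_of_countable_image f.injective.injOn (hL.2 _ ?_)
    rw [wellFoundedOn_image]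
    exact hs.mono' fun a _ b _ hab => f.lt_iff_lt.1 hab

theorem result (hCH : (2 : Cardinal.{0}) ^ Cardinal.aleph 0 < 2 ^ Cardinal.aleph 1)
    (L : Type) [LinearOrder L] (hL : Good L)
    (I : Type) (hI : Cardinal.mk I ≤ 2 ^ Cardinal.aleph 0) (B : I → Type)
    [∀ i, LinearOrder (B i)] (hunc : ∀ i, Uncountable (B i))
    (hbase : ∀ X : Set L, ¬ X.Countable → ∃ i, Nonempty (B i ↪o X)) :
    ∃ (M : Type) (_ : LinearOrder M), Countryman M ∧ Good M ∧ ¬ Compatible L M := by
  rw [Cardinal.aleph_zero] at hCH hI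
  let J : Type := {i : I // Nonempty (B i ↪o L)}
  have hJ : Cardinal.mk J ≤ 2 ^ Cardinal.aleph0.{0} := (Cardinal.mk_subtype_le _).trans hI
  have hLs : Gen.Short L := ⟨hL.1.2.1, hL.1.2.2.1⟩
  obtain ⟨e, he⟩ := Gen.no_embed hCH hJ (fun j : J => B j.1) (fun j => hunc j.1)
    (fun j => short_of_embedding hLs j.2.some)
  refine ⟨Gen.CLine e, inferInstance, Gen.countryman_CLine e, (Gen.countryman_CLine e).good, ?_⟩
  rintro ⟨s, t, hs, -, hst⟩
  obtain ⟨i, ⟨f⟩⟩ := hbase s hs
  have hi : Nonempty (B i ↪o L) := ⟨f.trans (OrderEmbedding.subtype _)⟩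
  rcases hst with ⟨⟨g⟩⟩ | ⟨⟨g⟩⟩
  · exact (he ⟨i, hi⟩ (fun x => (g (f x)).1)).1 fun x y hxy =>
      g.strictMono (f.strictMono hxy)
  · exact (he ⟨i, hi⟩ (fun x => (g (OrderDual.toDual (f x))).1)).2 fun x y hxy =>
      g.strictMono (show OrderDual.toDual (f y) < OrderDual.toDual (f x) from f.strictMono hxy)

end Pool.Agent.Results.MP_713299_lc.SmallBase
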