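import Pool.Agent.H497_Compat.Prod

/-!
# Suslin trees whose finite products contain trees without Suslin subtrees

Let `R` be an uncountable tree with no uncountable chain and no Suslin subtree, and let
`p i : R → T i` (`i < n`) be jointly injective level preserving maps into trees with countable
levels, such that for each `i` either `T i` is a Suslin tree or `p i` is not injective on any
uncountable lower subset of `R`.  Then there are two Aronszajn lines, neither containing a Suslin
line, which are not compatible.
-/

set_option autoImplicit false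

open Set Pool.Agent.H497

namespace Pool.Agent.Results.MP_713299_lc.SuslinProducts

theorem result (n : ℕ) (R : Type) [PartialOrder R] (T : Fin n → Type) [∀ i, PartialOrder (T i)]
    (hR : IsTree R) (hunc : Uncountable R) (hch : ∀ s : Set R, IsChain (· ≤ ·) s → s.Countable)
    (hns : ∀ R' : Set R, IsLowerSet R' → ¬ IsSuslinTree R')
    (hT : ∀ i, IsTree (T i) ∧ CountableLevels (T i))
    (p : ∀ i, R → T i) (hp : ∀ i, IsTreeHom (p i)) (hinj : ∀ x y, (∀ i, p i x = p i y) → x = y)
    (hproj : ∀ i, IsSuslinTree (T i) ∨
      ∀ R' : Set R, IsLowerSet R' → InjOn (p i) R' → R'.Countable) :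
    ∃ (L M : Type) (_ : LinearOrder L) (_ : LinearOrder M),
      Good L ∧ Good M ∧ ¬ Compatible L M := by
  by_contra hcon
  have hall : AllCompatible := by
    intro L M oL oM hL hM
    by_contra h
    exact hcon ⟨L, M, oL, oM, hL, hM, h⟩
  have hform : RamseyForm := (tfae.out 0 3).1 hall
  have := hR.wf
  have : ∀ i, WellFoundedLT (T i) := fun i => (hT i).1.wf
  obtain ⟨i, R', hlow, hR', hi⟩ := projection hform hR hch hunc hns (fun i => (hT i).1)
    (fun i => (hT i).2.rk (hT i).1) p hp hinj
  rcases hproj i with h | h
  · exact hns R' hlow (suslin_sub hR (hT i).1 hch h.2.2.2 (hp i) hlow hR' hi)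
  · exact hR' (h R' hlow hi)

end Pool.Agent.Results.MP_713299_lc.SuslinProducts
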